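import Pool.Agent.H9.Gon4

set_option autoImplicit false

namespace Pool.Agent.Results.MP_28c31d_co.Odd

open Pool.Agent.H9.Gon

/-- Q2 is false: a connected loopless multigraph whose gonality drops under 3-subdivision. -/
theorem result :
    ∃ k : ℕ, Odd k ∧ 3 ≤ k ∧
      ∃ (V E : Type) (_ : Fintype V) (_ : DecidableEq V) (_ : Fintype E) (_ : DecidableEq E)
        (s t : E → V), IsGraph s t ∧ gon (subS s t k) (subT s t k) < gon s t :=
  ⟨3, by decide, le_rfl, Fin 13, EE, inferInstance, inferInstance, inferInstance, inferInstance,
    gs, gt, isGraph, by have := le_eight; have := nine_le; omega⟩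

end Pool.Agent.Results.MP_28c31d_co.Odd
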